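import Mathlib
import Pool.Agent.Lib.CurG.Derived

/-!
# Derived embeddings of current graphs of index `k` with letters of restricted adjacency

As in `CurG.Derived`, but the letter `i` is adjacent only to the vertices whose class modulo `k`
satisfies `C i`.
-/

namespace Pool.Agent.Lib.CurP

open Pool.Agent.Lib.CurG

/-- All the elements of `ZMod N` are adjacent, the letter `i` is adjacent to the elements whose
class satisfies `C i`. -/
def KPart (N k : ℕ) (hk : k ∣ N) (J : Type) (C : J → ZMod k → Prop) :
    SimpleGraph (ZMod N ⊕ J) where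
  Adj
    | Sum.inl x, Sum.inl y => x ≠ y
    | Sum.inl x, Sum.inr i => C i (CG.cl hk x)
    | Sum.inr i, Sum.inl x => C i (CG.cl hk x)
    | Sum.inr _, Sum.inr _ => False
  symm := ⟨by
    rintro (x | i) (y | j) h
    · exact fun h' => h h'.symm
    · exact h
    · exact h
    · exact h⟩
  loopless := ⟨by
    rintro (x | i) h
    · exact h rfl
    · exact h⟩

/-- The combinatorial data. -/
structure CGP (k N : ℕ) (J : Type) (hk : k ∣ N) (C : J → ZMod k → Prop) where
  psi : ZMod k → ZMod N → ZMod N
  lab : ZMod k → ZMod N → Option J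
  g : J → ZMod k → ZMod N
  psi_ne : ∀ c j, j ≠ 0 → psi c j ≠ 0
  lab_none : ∀ c j, j ≠ 0 → lab c j = none →
    lab (c + ZMod.castHom hk (ZMod k) j) (psi c j) = none
  sum_zero : ∀ c j, j ≠ 0 → lab c j = none →
    j + psi c j + psi (c + ZMod.castHom hk (ZMod k) j) (psi c j) = 0
  g_ne : ∀ i c, C i c → g i c ≠ 0
  C_next : ∀ i c, C i c → C i (c + ZMod.castHom hk (ZMod k) (g i c))
  lab_some : ∀ c j i, j ≠ 0 → (lab c j = some i ↔ C i c ∧ j = g i c)
  psi_g : ∀ i c, C i c → psi c (g i c) = g i (c + ZMod.castHom hk (ZMod k) (g i c))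
  single_g : ∀ i x y, C i (CG.cl hk x) → C i (CG.cl hk y) →
    Reach (fun x => x + g i (ZMod.castHom hk (ZMod k) x)) x y
  single : ∀ c j j', j ≠ 0 → j' ≠ 0 →
    Reach (fun j => psi (c + ZMod.castHom hk (ZMod k) j) (-j)) j j'

namespace CGP

open CG (cl cl_add cl_sub cl_neg)

variable {k N : ℕ} {J : Type} {hk : k ∣ N} {C : J → ZMod k → Prop} (D : CGP k N J hk C)

/-- the face number `i` -/
def h (i : J) (x : ZMod N) : ZMod N := x + D.g i (cl hk x)

theorem C_h (i : J) (x : ZMod N) (hx : C i (cl hk x)) : C i (cl hk (D.h i x)) := by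
  rw [h, cl_add]; exact D.C_next i _ hx

variable [NeZero N]

/-- the face number `i` as a map of the set of its vertices -/
def hs (i : J) (x : {x : ZMod N // C i (cl hk x)}) : {x : ZMod N // C i (cl hk x)} :=
  ⟨D.h i x.1, D.C_h i x.1 x.2⟩

theorem hs_bij (i : J) : Function.Bijective (D.hs i) := by
  apply Function.Surjective.bijective_of_finite
  intro y
  obtain ⟨n, hn⟩ := D.single_g i (D.h i y.1) y.1 (D.C_h i _ y.2) y.2
  have key : ∀ m (z : {x : ZMod N // C i (cl hk x)}), ((D.hs i)^[m] z).1 = (D.h i)^[m] z.1 := by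
    intro m
    induction m with
    | zero => intro z; rfl
    | succ m ih => intro z; rw [Function.iterate_succ_apply, Function.iterate_succ_apply, ih]; rfl
  refine ⟨(D.hs i)^[n] y, ?_⟩
  apply Subtype.ext
  rw [← Function.iterate_succ_apply' (D.hs i) n y, key, Function.iterate_succ_apply]
  exact hn

/-- the face number `i` as a permutation -/
noncomputable def hE (i : J) : Equiv.Perm {x : ZMod N // C i (cl hk x)} :=
  Equiv.ofBijective _ (D.hs_bij i)

theorem hE_symm_spec (i : J) (y : {x : ZMod N // C i (cl hk x)}) :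
    D.h i ((D.hE i).symm y).1 = y.1 := by
  have : D.hs i ((D.hE i).symm y) = y := (D.hE i).apply_symm_apply y
  exact congrArg Subtype.val this

open Classical in
/-- the vertex before `y` on the face number `i` -/
noncomputable def hi (i : J) (y : ZMod N) : ZMod N :=
  if hy : C i (cl hk y) then ((D.hE i).symm ⟨y, hy⟩).1 else 0

theorem hi_C (i : J) (y : ZMod N) (hy : C i (cl hk y)) : C i (cl hk (D.hi i y)) := by
  rw [hi, dif_pos hy]; exact ((D.hE i).symm ⟨y, hy⟩).2

theorem h_hi (i : J) (y : ZMod N) (hy : C i (cl hk y)) : D.h i (D.hi i y) = y := by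
  rw [hi, dif_pos hy]; exact D.hE_symm_spec i ⟨y, hy⟩

theorem hi_eq (i : J) (x y : ZMod N) (hx : C i (cl hk x)) (hxy : D.h i x = y) :
    D.hi i y = x := by
  have hy : C i (cl hk y) := hxy ▸ D.C_h i x hx
  have : D.hs i ⟨D.hi i y, D.hi_C i y hy⟩ = D.hs i ⟨x, hx⟩ := by
    apply Subtype.ext
    change D.h i (D.hi i y) = D.h i x
    rw [D.h_hi i y hy, hxy]
  exact congrArg Subtype.val ((D.hs_bij i).1 this)

/-- The third vertex. -/
noncomputable def T : ZMod N ⊕ J → ZMod N ⊕ J → ZMod N ⊕ J
  | Sum.inl x, Sum.inl y =>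
    match D.lab (cl hk x) (y - x) with
    | some i => Sum.inr i
    | none => Sum.inl (y + D.psi (cl hk x) (y - x))
  | Sum.inl y, Sum.inr i => Sum.inl (D.hi i y)
  | Sum.inr i, Sum.inl x => Sum.inl (D.h i x)
  | Sum.inr i, Sum.inr _ => Sum.inr i

theorem T_none (x y : ZMod N) (h : D.lab (cl hk x) (y - x) = none) :
    D.T (Sum.inl x) (Sum.inl y) = Sum.inl (y + D.psi (cl hk x) (y - x)) := by
  simp only [T, h]

theorem T_some (x y : ZMod N) (i : J) (h : D.lab (cl hk x) (y - x) = some i) :
    D.T (Sum.inl x) (Sum.inl y) = Sum.inr i := by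
  simp only [T, h]

theorem T_lr (y : ZMod N) (i : J) :
    D.T (Sum.inl y) (Sum.inr i) = Sum.inl (D.hi i y) := rfl

theorem T_rl (x : ZMod N) (i : J) :
    D.T (Sum.inr i) (Sum.inl x) = Sum.inl (D.h i x) := rfl

theorem T_adj (u v : ZMod N ⊕ J) (h : (KPart N k hk J C).Adj u v) :
    (KPart N k hk J C).Adj v (D.T u v) := by
  rcases u with x | i <;> rcases v with y | i'
  · have hj : y - x ≠ 0 := by
      intro h'; exact h (sub_eq_zero.1 h').symm
    rcases hlab : D.lab (cl hk x) (y - x) with _ | i
    · rw [D.T_none x y hlab]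
      change y ≠ y + _
      intro h'
      exact D.psi_ne (cl hk x) _ hj (by simpa using h'.symm)
    · rw [D.T_some x y i hlab]
      change C i (cl hk y)
      obtain ⟨h1, h2⟩ := (D.lab_some _ _ i hj).1 hlab
      have h3 := D.C_next i _ h1
      rw [← h2] at h3
      have h4 : cl hk x + ZMod.castHom hk (ZMod k) (y - x) = cl hk y := by
        change cl hk x + cl hk (y - x) = cl hk y
        rw [cl_sub]; ring
      rwa [h4] at h3
  · rw [T_lr]
    exact D.hi_C i' x h
  · rw [T_rl]
    change y ≠ D.h i y
    intro h'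
    apply D.g_ne i (cl hk y) h
    have : y = y + D.g i (cl hk y) := h'
    simpa using this.symm
  · exact absurd h id

theorem T_cyc (u v : ZMod N ⊕ J) (h : (KPart N k hk J C).Adj u v) : D.T v (D.T u v) = u := by
  rcases u with x | i <;> rcases v with y | i'
  · have hj : y - x ≠ 0 := by
      intro h'; exact h (sub_eq_zero.1 h').symm
    have hc : cl hk x + ZMod.castHom hk (ZMod k) (y - x) = cl hk y := by
      change cl hk x + cl hk (y - x) = cl hk y
      rw [cl_sub]; ring
    rcases hlab : D.lab (cl hk x) (y - x) with _ | i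
    · rw [D.T_none x y hlab]
      have h1 := D.lab_none _ _ hj hlab
      have h2 := D.sum_zero _ _ hj hlab
      rw [hc] at h1 h2
      rw [D.T_none y _ (by rw [add_sub_cancel_left]; exact h1), add_sub_cancel_left]
      congr 1
      have : y + D.psi (cl hk x) (y - x) + D.psi (cl hk y) (D.psi (cl hk x) (y - x))
          = x + (y - x + D.psi (cl hk x) (y - x) + D.psi (cl hk y) (D.psi (cl hk x) (y - x))) := by
        ring
      rw [this, h2, add_zero]
    · rw [D.T_some x y i hlab, T_lr]
      congr 1
      have h1 := (D.lab_some _ _ i hj).1 hlab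
      apply D.hi_eq _ _ _ h1.1
      rw [CGP.h, ← h1.2]; ring
  · rw [T_lr, T_rl, h_hi _ _ _ h]
  · rw [T_rl]
    apply D.T_some
    have : D.h i y - y = D.g i (cl hk y) := by rw [CGP.h]; ring
    rw [this]
    exact (D.lab_some _ _ i (D.g_ne i _ h)).2 ⟨h, rfl⟩
  · exact absurd h id

theorem T_conn (u v w : ZMod N ⊕ J) (hv : (KPart N k hk J C).Adj v u)
    (hw : (KPart N k hk J C).Adj w u) :
    Reach (fun v => D.T v u) v w := by
  rcases u with x | i
  · -- the neighbours of `x`
    set f : ZMod N ⊕ J → ZMod N ⊕ J := fun v => D.T v (Sum.inl x) with hf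
    set c := cl hk x with hc
    set θ : ZMod N → ZMod N := fun j => D.psi (c + ZMod.castHom hk (ZMod k) j) (-j) with hθ
    have hcj : ∀ j : ZMod N, cl hk (x + j) = c + ZMod.castHom hk (ZMod k) j := fun j => cl_add x j
    have hcj' : ∀ j : ZMod N, c + ZMod.castHom hk (ZMod k) j + ZMod.castHom hk (ZMod k) (-j) = c := by
      intro j; rw [map_neg]; ring
    have hθne : ∀ j, j ≠ 0 → θ j ≠ 0 := fun j hj => D.psi_ne _ _ (neg_ne_zero.2 hj)
    have hr : ∀ i, f (Sum.inr i) = Sum.inl (x + D.g i c) := fun i => rfl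
    have step : ∀ j, j ≠ 0 → Reach f (Sum.inl (x + j)) (Sum.inl (x + θ j)) := by
      intro j hj
      have e1 : x - (x + j) = - j := by ring
      rcases hlab : D.lab (cl hk (x + j)) (x - (x + j)) with _ | i
      · refine ⟨1, ?_⟩
        change D.T (Sum.inl (x + j)) (Sum.inl x) = _
        rw [D.T_none _ _ hlab, e1, hcj]
      · refine ⟨2, ?_⟩
        change D.T (D.T (Sum.inl (x + j)) (Sum.inl x)) (Sum.inl x) = _
        rw [D.T_some _ _ i hlab]
        rw [e1, hcj] at hlab
        obtain ⟨h0, h1⟩ := (D.lab_some _ _ i (neg_ne_zero.2 hj)).1 hlab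
        have h2 : θ j = D.g i c := by
          rw [hθ]
          change D.psi (c + ZMod.castHom hk (ZMod k) j) (-j) = _
          rw [h1, D.psi_g _ _ h0, ← h1, hcj']
        rw [h2]
        exact hr i
    have step' : ∀ n j, j ≠ 0 → Reach f (Sum.inl (x + j)) (Sum.inl (x + θ^[n] j)) := by
      intro n
      induction n with
      | zero => intro j _; exact Reach.refl _ _
      | succ n ih =>
        intro j hj
        rw [Function.iterate_succ_apply]
        exact (step j hj).trans (ih _ (hθne j hj))
    have all : ∀ j j', j ≠ 0 → j' ≠ 0 → Reach f (Sum.inl (x + j)) (Sum.inl (x + j')) := by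
      intro j j' hj hj'
      obtain ⟨n, hn⟩ := D.single c j j' hj hj'
      have := step' n j hj
      rwa [show θ^[n] j = j' from hn] at this
    -- any start leads to some `inl`
    have start : ∃ j, j ≠ 0 ∧ Reach f v (Sum.inl (x + j)) := by
      rcases v with y | i
      · refine ⟨y - x, ?_, ?_⟩
        · intro h; exact hv (sub_eq_zero.1 h)
        · rw [add_sub_cancel]; exact Reach.refl _ _
      · exact ⟨D.g i c, D.g_ne i c hv, ⟨1, hr i⟩⟩
    have finish : ∃ j, j ≠ 0 ∧ Reach f (Sum.inl (x + j)) w := by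
      rcases w with y | i
      · refine ⟨y - x, ?_, ?_⟩
        · intro h; exact hw (sub_eq_zero.1 h)
        · rw [add_sub_cancel]; exact Reach.refl _ _
      · set x' := D.hi i x with hx'
        have hCx' : C i (cl hk x') := D.hi_C i x hw
        have h1 : x' + D.g i (cl hk x') = x := D.h_hi i x hw
        refine ⟨- D.g i (cl hk x'), neg_ne_zero.2 (D.g_ne i _ hCx'), ⟨1, ?_⟩⟩
        change D.T (Sum.inl (x + - D.g i (cl hk x'))) (Sum.inl x) = _
        have h2 : x + - D.g i (cl hk x') = x' := by
          rw [← sub_eq_add_neg]; exact sub_eq_of_eq_add h1.symm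
        rw [h2]
        apply D.T_some
        have h3 : x - x' = D.g i (cl hk x') := sub_eq_of_eq_add' h1.symm
        rw [h3]
        exact (D.lab_some _ _ i (D.g_ne i _ hCx')).2 ⟨hCx', rfl⟩
    obtain ⟨j, hj, h1⟩ := start
    obtain ⟨j', hj', h2⟩ := finish
    exact (h1.trans (all j j' hj hj')).trans h2
  · rcases v with a | i'
    · rcases w with b | i'
      · obtain ⟨n, hn⟩ := D.single_g i b a hw hv
        refine ⟨n, ?_⟩
        have key : ∀ m z, C i (cl hk z) →
            (fun v => D.T v (Sum.inr i))^[m] (Sum.inl ((D.h i)^[m] z))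
            = (Sum.inl z : ZMod N ⊕ J) ∧ C i (cl hk ((D.h i)^[m] z)) := by
          intro m
          induction m with
          | zero => intro z hz; exact ⟨rfl, hz⟩
          | succ m ih =>
            intro z hz
            have ih' := ih z hz
            refine ⟨?_, ?_⟩
            · rw [Function.iterate_succ_apply, Function.iterate_succ_apply']
              change (fun v => D.T v (Sum.inr i))^[m] (Sum.inl (D.hi i _)) = _
              rw [D.hi_eq i ((D.h i)^[m] z) _ ih'.2 rfl]
              exact ih'.1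
            · rw [Function.iterate_succ_apply']
              exact D.C_h i _ ih'.2
        have := (key n b hw).1
        rwa [show (D.h i)^[n] b = a from hn] at this
      · exact absurd hw id
    · exact absurd hv id

/-- The derived embedding is a triangular embedding. -/
noncomputable def triSys : TriSys (KPart N k hk J C) where
  T := D.T
  adj := D.T_adj
  cyc := D.T_cyc
  conn := D.T_conn

end CGP

end Pool.Agent.Lib.CurP
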