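import Mathlib
import Pool.Agent.Lib.CurP.Table

/-!
# A valid table gives a family of current graphs
-/

namespace Pool.Agent.Lib.CurP.Table

open Aff

theorem lin_nonneg {a b t L : ℤ} (h0 : 0 ≤ b) (h1 : 0 ≤ a * (L - 1) + b) (ht : 0 ≤ t)
    (ht' : t ≤ L - 1) : 0 ≤ a * t + b := by
  rcases le_total 0 a with ha | ha
  · have := mul_nonneg ha ht; omega
  · have := mul_nonneg_of_nonpos_of_nonpos ha (show t - (L - 1) ≤ 0 by omega)
    nlinarith

namespace Data

variable {D : Data}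

/-- the value of the state -/
def val (D : Data) (u : ℤ) (i p : ℕ) (q : ℤ) : ℤ := (D.sideAt i p).va * q + (D.sideAt i p).v.ev u

/-- its rank -/
def rk (D : Data) (u : ℤ) (i p : ℕ) (q : ℤ) : ℤ := (D.sideAt i p).ra * q + (D.sideAt i p).r.ev u

/-- a valid address of a state -/
def Valid (D : Data) (u : ℤ) (i p : ℕ) (q : ℤ) : Prop :=
  i < D.cells.length ∧ p < (D.cell i).m ∧ 0 ≤ q ∧ q < (D.cell i).len.ev u

theorem OK.side (h : D.OK) {i p : ℕ} (hi : i < D.cells.length) (hp : p < (D.cell i).m) :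
    D.sideOK i p := (h.2.2.2.2.2.1 i hi).2.1 p hp

variable {u : ℤ} {N : ℕ}

theorem Valid.nx {i p : ℕ} {q : ℤ} (hv : D.Valid u i p q) : D.Valid u i (D.nx i p) q :=
  ⟨hv.1, Nat.mod_lt _ (by have := hv.2.1; omega), hv.2.2⟩

section
variable (h : D.OK) (hu : D.u₀ ≤ u) (hN : (N : ℤ) = D.nf.ev u)
include h hu hN

theorem two_le : 2 ≤ N := by
  have := h.2.2.1.ev hu
  rw [ev_sub, ev_cst, ← hN] at this
  omega

omit hu in
theorem k_dvd : D.k ∣ N := by
  have h1 := h.2.2.2.1
  have h2 := h.2.2.2.2.1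
  have : (D.k : ℤ) ∣ (N : ℤ) := by
    rw [hN, Aff.ev]
    exact dvd_add (Dvd.dvd.mul_right (Int.dvd_of_emod_eq_zero h1) _)
      (Int.dvd_of_emod_eq_zero h2)
  exact_mod_cast this

theorem val_range {i p : ℕ} {q : ℤ} (hv : D.Valid u i p q) :
    1 ≤ D.val u i p q ∧ D.val u i p q ≤ N - 1 := by
  obtain ⟨hi, hp, hq, hq'⟩ := hv
  obtain ⟨-, -, -, -, -, a1, a2, a3, a4, -⟩ := h.side hi hp
  have a1 := a1.ev hu
  have a2 := a2.ev hu
  have a3 := a3.ev hu
  have a4 := a4.ev hu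
  simp only [ev_sub, ev_add, ev_smul, ev_cst, ← hN] at a1 a2 a3 a4
  have b1 := lin_nonneg (a := (D.sideAt i p).va) (b := (D.sideAt i p).v.ev u - 1) (t := q)
    (L := (D.cell i).len.ev u) a1 (by linarith) hq (by omega)
  have b2 := lin_nonneg (a := -(D.sideAt i p).va) (b := N - 1 - (D.sideAt i p).v.ev u) (t := q)
    (L := (D.cell i).len.ev u) a2 (by linarith) hq (by omega)
  unfold val
  constructor <;> linarith

theorem rk_range {i p : ℕ} {q : ℤ} (hv : D.Valid u i p q) :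
    0 ≤ D.rk u i p q ∧ D.rk u i p q ≤ N - 2 := by
  obtain ⟨hi, hp, hq, hq'⟩ := hv
  obtain ⟨-, -, -, -, -, -, -, -, -, a1, a2, a3, a4, -⟩ := h.side hi hp
  have a1 := a1.ev hu
  have a2 := a2.ev hu
  have a3 := a3.ev hu
  have a4 := a4.ev hu
  simp only [ev_sub, ev_add, ev_smul, ev_cst, ← hN] at a1 a2 a3 a4
  have b1 := lin_nonneg (a := (D.sideAt i p).ra) (b := (D.sideAt i p).r.ev u) (t := q)
    (L := (D.cell i).len.ev u) a1 (by linarith) hq (by omega)
  have b2 := lin_nonneg (a := -(D.sideAt i p).ra) (b := N - 2 - (D.sideAt i p).r.ev u) (t := q)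
    (L := (D.cell i).len.ev u) a2 (by linarith) hq (by omega)
  unfold rk
  constructor <;> linarith

omit hu hN in
/-- the value modulo `k` -/
theorem val_mod {i p : ℕ} {q : ℤ} (hv : D.Valid u i p q) :
    (D.k : ℤ) ∣ D.val u i p q - (D.sideAt i p).v.b := by
  obtain ⟨-, -, a1, a2, -⟩ := h.side hv.1 hv.2.1
  have : D.val u i p q - (D.sideAt i p).v.b = (D.sideAt i p).va * q + (D.sideAt i p).v.a * u := by
    unfold val Aff.ev; ring
  rw [this]
  exact dvd_add (Dvd.dvd.mul_right (Int.dvd_of_emod_eq_zero a1) _)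
    (Dvd.dvd.mul_right (Int.dvd_of_emod_eq_zero a2) _)

omit hu hN in
theorem cls_next {i p : ℕ} {q : ℤ} (hv : D.Valid u i p q) :
    (D.k : ℤ) ∣ (D.sideAt i p).cls + D.val u i p q - (D.sideAt i (D.nx i p)).cls := by
  obtain ⟨-, -, -, -, a1, -⟩ := h.side hv.1 hv.2.1
  have e : (D.sideAt i p).cls + D.val u i p q - (D.sideAt i (D.nx i p)).cls
      = ((D.sideAt i p).cls + (D.sideAt i p).v.b - (D.sideAt i (D.nx i p)).cls)
        + (D.val u i p q - (D.sideAt i p).v.b) := by ring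
  rw [e]
  exact dvd_add (Int.dvd_of_emod_eq_zero a1) (val_mod h hv)

omit h hu hN in
theorem cover_spec {len : Aff} : ∀ (Ps : List Piece) (q : Aff) (x : ℤ),
    cover len q Ps = true → q.ev u ≤ x → x < len.ev u →
    ∃ P ∈ Ps, P.q0.ev u ≤ x ∧ x ≤ P.q0.ev u + P.cnt.ev u - 1 := by
  intro Ps
  induction Ps with
  | nil =>
    intro q x hc h1 h2
    simp only [cover, decide_eq_true_eq] at hc
    rw [hc] at h1
    omega
  | cons P Ps ih =>
    intro q x hc h1 h2
    simp only [cover, Bool.and_eq_true, decide_eq_true_eq] at hc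
    obtain ⟨hc1, hc2⟩ := hc
    by_cases hx : x < q.ev u + P.cnt.ev u
    · refine ⟨P, List.mem_cons_self, ?_, ?_⟩ <;> rw [hc1] <;> omega
    · obtain ⟨P', hP', h3⟩ := ih (q.add P.cnt) x hc2 (by rw [ev_add]; omega) h2
      exact ⟨P', List.mem_cons_of_mem _ hP', h3⟩

/-- The reverse state, and the rank of its successor. -/
theorem exists_mate {i p : ℕ} {q : ℤ} (hv : D.Valid u i p q) :
    ∃ i' p' q', D.Valid u i' p' q' ∧ (∃ z : ℤ, D.val u i p q + D.val u i' p' q' = z * N) ∧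
      (D.k : ℤ) ∣ (D.sideAt i p).cls + D.val u i p q - (D.sideAt i' p').cls ∧
      ∃ w : ℤ, D.rk u i p q + 1 = D.rk u i' (D.nx i' p') q' + w * (N - 1) := by
  obtain ⟨hi, hp, hq, hq'⟩ := hv
  obtain ⟨-, -, -, -, -, -, -, -, -, -, -, -, -, hcov, hpc⟩ := h.side hi hp
  obtain ⟨P, hP, h1, h2⟩ := cover_spec _ _ q hcov (by rw [ev_cst]; exact hq) hq'
  obtain ⟨c1, c2, c3, c4, c5, c6, c7, c8, c9, c10, c11⟩ := hpc P hP
  set t := q - P.q0.ev u with ht
  have ht0 : 0 ≤ t := by omega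
  have ht1 : t ≤ P.cnt.ev u - 1 := by omega
  have c3 := c3.ev hu
  have c4 := c4.ev hu
  have c5 := c5.ev hu
  have c6 := c6.ev hu
  have c7 := congrArg (fun f => Aff.ev f u) c7
  have c10 := congrArg (fun f => Aff.ev f u) c10
  simp only [ev_sub, ev_add, ev_smul, ev_cst, ← hN] at c3 c4 c5 c6 c7 c10
  have b1 := lin_nonneg (a := P.sg) (b := P.off.ev u) (t := t) (L := P.cnt.ev u) c3
    (by linarith) ht0 ht1
  have b2 := lin_nonneg (a := -P.sg) (b := (D.cell P.cell).len.ev u - (1 + P.off.ev u)) (t := t)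
    (L := P.cnt.ev u) c4 (by linarith) ht0 ht1
  have hone : P.cnt = Aff.cst 1 → t = 0 := by
    intro h
    rw [h, ev_cst] at ht1
    omega
  refine ⟨P.cell, P.side, P.sg * t + P.off.ev u, ⟨c1, c2, b1, by linarith⟩, ⟨P.z, ?_⟩, ?_, P.w, ?_⟩
  · have e1 : (D.sideAt i p).va * t + (D.sideAt P.cell P.side).va * (P.sg * t) = 0 := by
      rcases c8 with c8 | c8
      · rw [← mul_assoc, ← add_mul, c8, zero_mul]
      · rw [hone c8]; ring
    have e2 : q = P.q0.ev u + t := by omega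
    unfold val
    rw [e2, ← c7]
    linear_combination e1
  · have e : (D.sideAt i p).cls + D.val u i p q - (D.sideAt P.cell P.side).cls
        = ((D.sideAt i p).cls + (D.sideAt i p).v.b - (D.sideAt P.cell P.side).cls)
          + (D.val u i p q - (D.sideAt i p).v.b) := by ring
    rw [e]
    exact dvd_add (Int.dvd_of_emod_eq_zero c9) (val_mod h ⟨hi, hp, hq, hq'⟩)
  · have e1 : (D.sideAt i p).ra * t = (D.sideAt P.cell (D.nx P.cell P.side)).ra * (P.sg * t) := by
      rcases c11 with c11 | c11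
      · rw [c11]; ring
      · rw [hone c11]; ring
    have e2 : q = P.q0.ev u + t := by omega
    unfold rk
    rw [e2]
    linear_combination c10 + e1

omit h hu hN in
theorem run_spec {cls md : ℤ} (hmd : 0 < md) {fin : Aff} : ∀ (es : List (ℕ × ℕ)) (cur : Aff)
    (x : ℤ), D.run cls md fin cur es = true → cur.ev u ≤ x → x < fin.ev u → md ∣ x - cur.ev u →
    ∃ i p q, D.Valid u i p q ∧ (D.sideAt i p).cls = cls ∧ D.val u i p q = x := by
  intro es
  induction es with
  | nil =>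
    intro cur x hr h1 h2
    simp only [run, decide_eq_true_eq] at hr
    rw [hr] at h1
    omega
  | cons e es ih =>
    intro cur x hr h1 h2 h3
    simp only [run, Bool.and_eq_true, decide_eq_true_eq] at hr
    obtain ⟨⟨c1, c2, c3, c4⟩, hr2⟩ := hr
    by_cases hx : x < cur.ev u + md * (D.cell e.1).len.ev u
    · obtain ⟨t, ht⟩ := h3
      have ht0 : 0 ≤ t := by
        by_contra hneg
        have : md * t < 0 := mul_neg_of_pos_of_neg hmd (by omega)
        omega
      have ht1 : t < (D.cell e.1).len.ev u := by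
        by_contra hge
        have : md * (D.cell e.1).len.ev u ≤ md * t := by
          apply mul_le_mul_of_nonneg_left _ hmd.le
          omega
        omega
      rcases c4 with ⟨d1, d2⟩ | ⟨d1, d2⟩ | ⟨d1, d2⟩
      · refine ⟨e.1, e.2, t, ⟨c1, c2, ht0, ht1⟩, c3, ?_⟩
        unfold val
        rw [d1, d2]
        linear_combination - ht
      · have d2 := congrArg (fun f => Aff.ev f u) d2
        simp only [ev_add, ev_sub, ev_smul, ev_cst] at d2
        refine ⟨e.1, e.2, (D.cell e.1).len.ev u - 1 - t, ⟨c1, c2, by omega, by omega⟩, c3, ?_⟩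
        unfold val
        rw [d1]
        linear_combination d2 - ht
      · have d2 := congrArg (fun f => Aff.ev f u) d2
        rw [d1, ev_cst] at ht1
        have ht2 : t = 0 := by omega
        refine ⟨e.1, e.2, t, ⟨c1, c2, ht0, by rw [d1, ev_cst]; exact ht1⟩, c3, ?_⟩
        unfold val
        rw [ht2] at ht ⊢
        linear_combination d2 - ht
    · apply ih _ x hr2 (by rw [ev_add, ev_smul]; omega) h2
      rw [ev_add, ev_smul]
      have : x - (cur.ev u + md * (D.cell e.1).len.ev u)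
          = (x - cur.ev u) - md * (D.cell e.1).len.ev u := by ring
      rw [this]
      exact dvd_sub h3 (Dvd.intro _ rfl)

omit h hN in
theorem zone_spec {cls ρ : ℤ} {Z : Zone} (hZ : D.zoneOK cls ρ Z) (y : ℤ)
    (hρ : (D.M0 : ℤ) ∣ y - ρ) (h1 : Z.lo.ev u ≤ y) (h2 : y < Z.hi.ev u) :
    ∃ i p q, D.Valid u i p q ∧ (D.sideAt i p).cls = cls ∧ D.val u i p q = y := by
  obtain ⟨hM, hM0, hlo, hall⟩ := hZ
  have hMpos : (0 : ℤ) < Z.M := by exact_mod_cast hM
  set r := (y - Z.lo.ev u) % (Z.M : ℤ) with hr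
  have hr0 : 0 ≤ r := Int.emod_nonneg _ hMpos.ne'
  have hr1 : r < Z.M := Int.emod_lt_of_pos _ hMpos
  have hMM : (D.M0 : ℤ) ∣ (Z.M : ℤ) := by exact_mod_cast Nat.dvd_of_mod_eq_zero hM0
  have hdr : (Z.M : ℤ) ∣ (y - Z.lo.ev u) - r := Int.dvd_self_sub_emod
  obtain ⟨ch, -, c1, c2, c3, c4, c5, c6, c7⟩ := hall r.toNat (by omega) (by
    rw [Int.toNat_of_nonneg hr0]
    apply Int.emod_eq_zero_of_dvd
    have e1 : Z.lo.b + r - ρ = (y - ρ) - ((y - Z.lo.ev u) - r) - Z.lo.a * u := by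
      unfold Aff.ev; ring
    rw [e1]
    exact dvd_sub (dvd_sub hρ (hMM.trans hdr)) (Dvd.dvd.mul_right (Int.dvd_of_emod_eq_zero hlo) _))
  rw [Int.toNat_of_nonneg hr0] at c4
  have c5 := c5.ev hu
  have c6 := c6.ev hu
  rw [ev_sub, ev_add, ev_cst] at c5
  rw [ev_sub] at c6
  have hmdM : ch.md ∣ (Z.M : ℤ) := Int.dvd_of_emod_eq_zero c2
  have hd : ch.md ∣ y - ch.start.ev u := by
    have e1 : y - ch.start.ev u = ((y - Z.lo.ev u) - r) - (ch.start.b - Z.lo.b - r)
        - (ch.start.a - Z.lo.a) * u := by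
      unfold Aff.ev; ring
    rw [e1]
    exact dvd_sub (dvd_sub (hmdM.trans hdr) (Int.dvd_of_emod_eq_zero c4))
      (Dvd.dvd.mul_right (Int.dvd_of_emod_eq_zero c3) _)
  have hge : ch.start.ev u ≤ y := by
    by_contra hcon
    obtain ⟨t, ht⟩ := hd
    have ht0 : t ≤ -1 := by
      by_contra hneg
      have : 0 ≤ ch.md * t := mul_nonneg c1.le (by omega)
      omega
    have : ch.md * t ≤ ch.md * (-1) := mul_le_mul_of_nonneg_left ht0 c1.le
    omega
  exact run_spec c1 ch.ents ch.start y c7 hge (by omega) hd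

omit h in
theorem zcover_spec {cls ρ : ℤ} : ∀ (Zs : List Zone) (q : Aff) (y : ℤ),
    D.zcover cls ρ q Zs = true → q.ev u ≤ y → y < N → (D.M0 : ℤ) ∣ y - ρ →
    ∃ i p q, D.Valid u i p q ∧ (D.sideAt i p).cls = cls ∧ D.val u i p q = y := by
  intro Zs
  induction Zs with
  | nil =>
    intro q y hc h1 h2
    simp only [zcover, decide_eq_true_eq] at hc
    rw [hc, ← hN] at h1
    omega
  | cons Z Zs ih =>
    intro q y hc h1 h2 h3
    simp only [zcover, Bool.and_eq_true, decide_eq_true_eq] at hc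
    obtain ⟨⟨hc1, hc2⟩, hc3⟩ := hc
    by_cases hy : y < Z.hi.ev u
    · exact zone_spec hu hc2 y h3 (by rw [hc1]; exact h1) hy
    · exact ih Z.hi y hc3 (by omega) h2 h3

theorem exists_valid (c : ℕ) (hc : c < D.k) (y : ℤ) (hy : ¬ (N : ℤ) ∣ y) :
    ∃ i p q, D.Valid u i p q ∧ (D.sideAt i p).cls = c ∧ (N : ℤ) ∣ D.val u i p q - y := by
  have hM : (0 : ℤ) < D.M0 := by exact_mod_cast h.2.1
  have hN2 := two_le h hu hN
  have hNpos : (0 : ℤ) < N := by omega
  set y' := y % (N : ℤ) with hy'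
  have h0 : 0 ≤ y' := Int.emod_nonneg _ hNpos.ne'
  have h1 : y' < N := Int.emod_lt_of_pos _ hNpos
  have h2 : y' ≠ 0 := fun h => hy (Int.dvd_of_emod_eq_zero h)
  have hd : (N : ℤ) ∣ y' - y := by
    have : (N : ℤ) ∣ y - y' := Int.dvd_self_sub_emod
    have h3 := dvd_neg.2 this
    rwa [neg_sub] at h3
  have hρ0 : 0 ≤ y' % (D.M0 : ℤ) := Int.emod_nonneg _ hM.ne'
  have hρ1 : y' % (D.M0 : ℤ) < D.M0 := Int.emod_lt_of_pos _ hM
  have hz := h.2.2.2.2.2.2.2.2 c hc (y' % (D.M0 : ℤ)).toNat (by omega)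
  obtain ⟨i, p, q, hv, hcl, hval⟩ := zcover_spec hu hN _ _ y' hz (by rw [ev_cst]; omega) h1 (by
    rw [Int.toNat_of_nonneg hρ0]
    exact Int.dvd_self_sub_emod)
  exact ⟨i, p, q, hv, hcl, by rw [hval]; exact hd⟩

end

/-! ### The bijection between addresses and states -/

/-- Addresses. -/
abbrev Slot (D : Data) (u : ℤ) : Type :=
  Σ i : Fin D.cells.length, Fin (D.cell i).m × Fin ((D.cell i).len.ev u).toNat

theorem sum_getD (F : Cell → ℤ) : ∀ l : List Cell,
    ∑ i : Fin l.length, F (l.getD i default) = (l.map F).sum := by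
  intro l
  induction l with
  | nil => simp
  | cons c l ih =>
    rw [List.map_cons, List.sum_cons, ← ih]
    exact Fin.sum_univ_succ (n := l.length) (fun i => F ((c :: l).getD i default))

theorem total_ev (u : ℤ) : ∀ l : List Cell,
    (total l).ev u = (l.map fun c => (c.m : ℤ) * c.len.ev u).sum := by
  intro l
  induction l with
  | nil => simp [total, ev_cst]
  | cons c l ih => rw [total, ev_add, ev_smul, ih, List.map_cons, List.sum_cons]

theorem card_slot (h : D.OK) (hu : D.u₀ ≤ u) (hN : (N : ℤ) = D.nf.ev u) :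
    Fintype.card (Slot D u) = D.k * (N - 1) := by
  have h1 : ((Fintype.card (Slot D u) : ℕ) : ℤ) = (total D.cells).ev u := by
    rw [total_ev, ← sum_getD, Fintype.card_sigma]
    push_cast
    apply Finset.sum_congr rfl
    intro i _
    rw [Fintype.card_prod, Fintype.card_fin, Fintype.card_fin]
    have hlen : 0 ≤ (D.cell i).len.ev u := (h.2.2.2.2.2.1 i i.2).1.ev hu
    push_cast
    rw [Int.toNat_of_nonneg hlen]
    rfl
  rw [h.2.2.2.2.2.2.2.1, ev_smul, ev_sub, ev_cst, ← hN] at h1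
  have h2 := two_le h hu hN
  zify
  rw [h1, Nat.cast_sub (by omega)]
  rfl

end Data

end Pool.Agent.Lib.CurP.Table
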