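import Mathlib
import Pool.Agent.Lib.CurP.TableThm

/-!
# A valid table gives a family of current graphs (construction)
-/

namespace Pool.Agent.Lib.CurP.Table.Data

open Aff

variable {D : Data} {u : ℤ} {N : ℕ}

/-- the slot with given valid address -/
def mkSlot {i p : ℕ} {q : ℤ} (hv : D.Valid u i p q) : Slot D u :=
  ⟨⟨i, hv.1⟩, ⟨p, hv.2.1⟩, ⟨q.toNat, by
    have h1 := hv.2.2.1
    have h2 := hv.2.2.2
    have : q.toNat < ((D.cell i).len.ev u).toNat := by omega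
    exact this⟩⟩

theorem slot_valid (x : Slot D u) : D.Valid u x.1 x.2.1 ((x.2.2 : ℕ) : ℤ) := by
  refine ⟨x.1.2, x.2.1.2, by positivity, ?_⟩
  have := x.2.2.2
  omega

open Classical in
/-- the difference of the next dart -/
noncomputable def psi (D : Data) (u : ℤ) (N : ℕ) (c : ZMod D.k) (j : ZMod N) : ZMod N :=
  if hj : ∃ t : ℕ × ℕ × ℤ, D.Valid u t.1 t.2.1 t.2.2 ∧
      (((D.sideAt t.1 t.2.1).cls : ℤ) : ZMod D.k) = c ∧
      ((D.val u t.1 t.2.1 t.2.2 : ℤ) : ZMod N) = j then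
    ((D.val u hj.choose.1 (D.nx hj.choose.1 hj.choose.2.1) hj.choose.2.2 : ℤ) : ZMod N)
  else 0

open Classical in
/-- the label -/
noncomputable def lab (D : Data) (u : ℤ) (N : ℕ) (c : ZMod D.k) (j : ZMod N) : Option (Fin D.J) :=
  if hj : ∃ t : ℕ × ℕ × ℤ, D.Valid u t.1 t.2.1 t.2.2 ∧
      (((D.sideAt t.1 t.2.1).cls : ℤ) : ZMod D.k) = c ∧
      ((D.val u t.1 t.2.1 t.2.2 : ℤ) : ZMod N) = j then
    (if h0 : 0 < (D.cell hj.choose.1).lab ∧ (D.cell hj.choose.1).lab ≤ D.J then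
      some ⟨(D.cell hj.choose.1).lab - 1, by omega⟩ else none)
  else none

open Classical in
/-- the rank -/
noncomputable def rank (D : Data) (u : ℤ) (N : ℕ) (c : ZMod D.k) (j : ZMod N) : ZMod (N - 1) :=
  if hj : ∃ t : ℕ × ℕ × ℤ, D.Valid u t.1 t.2.1 t.2.2 ∧
      (((D.sideAt t.1 t.2.1).cls : ℤ) : ZMod D.k) = c ∧
      ((D.val u t.1 t.2.1 t.2.2 : ℤ) : ZMod N) = j then
    ((D.rk u hj.choose.1 hj.choose.2.1 hj.choose.2.2 : ℤ) : ZMod (N - 1))
  else 0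

section
variable (h : D.OK) (hu : D.u₀ ≤ u) (hN : (N : ℤ) = D.nf.ev u)

theorem k_ne (h : D.OK) : NeZero D.k := ⟨h.1.ne'⟩

/-- The state with a given address. -/
def st (x : Slot D u) : ZMod D.k × ZMod N :=
  (((D.sideAt x.1 x.2.1).cls : ZMod D.k), ((D.val u x.1 x.2.1 (x.2.2 : ℕ) : ℤ) : ZMod N))

include h hu hN in
theorem val_ne_zero {i p : ℕ} {q : ℤ} (hv : D.Valid u i p q) :
    ((D.val u i p q : ℤ) : ZMod N) ≠ 0 := by
  have h1 := val_range h hu hN hv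
  intro h2
  rw [ZMod.intCast_zmod_eq_zero_iff_dvd] at h2
  have := Int.le_of_dvd (by omega) h2
  omega

/-- The state with a given address. -/
def st' (x : Slot D u) : ZMod D.k × {j : ZMod N // j ≠ 0} :=
  ((st (N := N) x).1, ⟨(st (N := N) x).2, val_ne_zero h hu hN (slot_valid x)⟩)

theorem st'_surj : Function.Surjective (st' h hu hN) := by
  rintro ⟨c, j, hj⟩
  have := k_ne h
  have : NeZero N := ⟨by have := two_le h hu hN; omega⟩
  have hj' : ¬ (N : ℤ) ∣ (j.val : ℤ) := by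
    rw [← ZMod.intCast_zmod_eq_zero_iff_dvd]
    simpa using hj
  obtain ⟨i, p, q, hv, hc, hd⟩ := exists_valid h hu hN c.val (ZMod.val_lt c) _ hj'
  refine ⟨⟨⟨i, hv.1⟩, ⟨p, hv.2.1⟩, ⟨q.toNat, ?_⟩⟩, ?_⟩
  · have h1 := hv.2.2.1
    have h2 := hv.2.2.2
    have : q.toNat < ((D.cell i).len.ev u).toNat := by omega
    exact this
  · have hq : ((q.toNat : ℕ) : ℤ) = q := Int.toNat_of_nonneg hv.2.2.1
    apply Prod.ext
    · change (((D.sideAt i p).cls : ℤ) : ZMod D.k) = c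
      rw [hc]
      simp
    · apply Subtype.ext
      change ((D.val u i p (q.toNat : ℕ) : ℤ) : ZMod N) = j
      rw [hq]
      have : ((D.val u i p q : ℤ) : ZMod N) = ((j.val : ℤ) : ZMod N) := by
        rw [← sub_eq_zero, ← Int.cast_sub, ZMod.intCast_zmod_eq_zero_iff_dvd]
        exact hd
      rw [this]
      simp

theorem st'_bij : Function.Bijective (st' h hu hN) := by
  classical
  have := k_ne h
  have : NeZero N := ⟨by have := two_le h hu hN; omega⟩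
  rw [Fintype.bijective_iff_surjective_and_card]
  refine ⟨st'_surj h hu hN, ?_⟩
  rw [card_slot h hu hN, Fintype.card_prod, ZMod.card]
  congr 1
  rw [Fintype.card_subtype_compl, ZMod.card]
  simp

/-- The bijection. -/
noncomputable def E : Slot D u ≃ ZMod D.k × {j : ZMod N // j ≠ 0} :=
  Equiv.ofBijective _ (st'_bij h hu hN)

include h hu hN in
theorem valid_inj {i p i' p' : ℕ} {q q' : ℤ} (hv : D.Valid u i p q) (hv' : D.Valid u i' p' q')
    (hc : (((D.sideAt i p).cls : ℤ) : ZMod D.k) = ((D.sideAt i' p').cls : ℤ))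
    (hval : ((D.val u i p q : ℤ) : ZMod N) = ((D.val u i' p' q' : ℤ) : ZMod N)) :
    i = i' ∧ p = p' ∧ q = q' := by
  have hq : ((q.toNat : ℕ) : ℤ) = q := Int.toNat_of_nonneg hv.2.2.1
  have hq' : ((q'.toNat : ℕ) : ℤ) = q' := Int.toNat_of_nonneg hv'.2.2.1
  have : mkSlot hv = mkSlot hv' := by
    apply (st'_bij h hu hN).1
    apply Prod.ext
    · exact hc
    · apply Subtype.ext
      change ((D.val u i p (q.toNat : ℕ) : ℤ) : ZMod N) = ((D.val u i' p' (q'.toNat : ℕ) : ℤ) : ZMod N)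
      rw [hq, hq', hval]
  have h1 : i = i' := by
    have := congrArg (fun x : Slot D u => (x.1 : ℕ)) this
    exact this
  have h2 : p = p' := by
    have := congrArg (fun x : Slot D u => (x.2.1 : ℕ)) this
    exact this
  have h3 : q.toNat = q'.toNat := by
    have := congrArg (fun x : Slot D u => (x.2.2 : ℕ)) this
    exact this
  exact ⟨h1, h2, by omega⟩

include h hu hN in
/-- every state has a valid address -/
theorem exists_rep (c : ZMod D.k) (j : ZMod N) (hj : j ≠ 0) :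
    ∃ i p q, D.Valid u i p q ∧ (((D.sideAt i p).cls : ℤ) : ZMod D.k) = c ∧
      ((D.val u i p q : ℤ) : ZMod N) = j := by
  obtain ⟨x, hx⟩ := st'_surj h hu hN (c, ⟨j, hj⟩)
  refine ⟨x.1, x.2.1, (x.2.2 : ℕ), slot_valid x, ?_, ?_⟩
  · exact congrArg Prod.fst hx
  · exact congrArg (fun y => (y.2 : ZMod N)) hx

include h hu hN in
theorem psi_spec {i p : ℕ} {q : ℤ} (hv : D.Valid u i p q) :
    D.psi u N (((D.sideAt i p).cls : ℤ) : ZMod D.k) ((D.val u i p q : ℤ) : ZMod N)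
      = ((D.val u i (D.nx i p) q : ℤ) : ZMod N) := by
  have hj : ∃ t : ℕ × ℕ × ℤ, D.Valid u t.1 t.2.1 t.2.2 ∧
      (((D.sideAt t.1 t.2.1).cls : ℤ) : ZMod D.k) = (((D.sideAt i p).cls : ℤ) : ZMod D.k) ∧
      ((D.val u t.1 t.2.1 t.2.2 : ℤ) : ZMod N) = ((D.val u i p q : ℤ) : ZMod N) :=
    ⟨(i, p, q), hv, rfl, rfl⟩
  have h1 := hj.choose_spec
  obtain ⟨e1, e2, e3⟩ := valid_inj h hu hN h1.1 hv h1.2.1 h1.2.2
  rw [psi, dif_pos hj, e1, e2, e3]

include h hu hN in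
theorem lab_spec {i p : ℕ} {q : ℤ} (hv : D.Valid u i p q) :
    D.lab u N (((D.sideAt i p).cls : ℤ) : ZMod D.k) ((D.val u i p q : ℤ) : ZMod N)
      = if h0 : 0 < (D.cell i).lab ∧ (D.cell i).lab ≤ D.J then
      some ⟨(D.cell i).lab - 1, by omega⟩ else none := by
  have hj : ∃ t : ℕ × ℕ × ℤ, D.Valid u t.1 t.2.1 t.2.2 ∧
      (((D.sideAt t.1 t.2.1).cls : ℤ) : ZMod D.k) = (((D.sideAt i p).cls : ℤ) : ZMod D.k) ∧
      ((D.val u t.1 t.2.1 t.2.2 : ℤ) : ZMod N) = ((D.val u i p q : ℤ) : ZMod N) :=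
    ⟨(i, p, q), hv, rfl, rfl⟩
  have h1 := hj.choose_spec
  obtain ⟨e1, e2, e3⟩ := valid_inj h hu hN h1.1 hv h1.2.1 h1.2.2
  rw [lab, dif_pos hj]
  simp only [e1]

include h hu hN in
theorem rank_spec {i p : ℕ} {q : ℤ} (hv : D.Valid u i p q) :
    D.rank u N (((D.sideAt i p).cls : ℤ) : ZMod D.k) ((D.val u i p q : ℤ) : ZMod N)
      = ((D.rk u i p q : ℤ) : ZMod (N - 1)) := by
  have hj : ∃ t : ℕ × ℕ × ℤ, D.Valid u t.1 t.2.1 t.2.2 ∧
      (((D.sideAt t.1 t.2.1).cls : ℤ) : ZMod D.k) = (((D.sideAt i p).cls : ℤ) : ZMod D.k) ∧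
      ((D.val u t.1 t.2.1 t.2.2 : ℤ) : ZMod N) = ((D.val u i p q : ℤ) : ZMod N) :=
    ⟨(i, p, q), hv, rfl, rfl⟩
  have h1 := hj.choose_spec
  obtain ⟨e1, e2, e3⟩ := valid_inj h hu hN h1.1 hv h1.2.1 h1.2.2
  rw [rank, dif_pos hj, e1, e2, e3]

end

end Pool.Agent.Lib.CurP.Table.Data
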