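import Mathlib
import Pool.Agent.Lib.CurP.TableCG

/-!
# A valid table gives a family of current graphs (conclusion)
-/

namespace Pool.Agent.Lib.CurP.Table

open Pool.Agent.Lib.CurG (Reach)

theorem reach_of_rank {α : Type*} [Fintype α] (M : ℕ) [NeZero M] (hcard : Fintype.card α = M)
    (θ : α → α) (R : α → ZMod M) (hR : ∀ x, R (θ x) = R x + 1) (x y : α) : Reach θ x y := by
  have h1 : ∀ (x : α) (n : ℕ), R (θ^[n] x) = R x + n := by
    intro x n
    induction n with
    | zero => simp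
    | succ n ih => rw [Function.iterate_succ_apply', hR, ih]; push_cast; ring
  have hsurj : Function.Surjective R := by
    intro r
    refine ⟨θ^[(r - R x).val] x, ?_⟩
    rw [h1, ZMod.natCast_zmod_val]; ring
  have hbij : Function.Bijective R := by
    rw [Fintype.bijective_iff_surjective_and_card]
    exact ⟨hsurj, by rw [hcard, ZMod.card]⟩
  refine ⟨(R y - R x).val, hbij.1 ?_⟩
  rw [h1, ZMod.natCast_zmod_val]; ring

namespace Data

open Aff

variable {D : Data} {u : ℤ} {N : ℕ}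

/-- number of sides of the letter `e` -/
def mm (D : Data) (e : ℕ) : ℕ := (D.cell (D.vort e).cell).m

/-- the classes which are adjacent to the letter `e` -/
def CC (D : Data) (e : Fin D.J) (c : ZMod D.k) : Prop :=
  ∃ p, p < D.mm e ∧ (D.sideAt (D.vort e).cell p).cls = (c.val : ℤ)

open Classical in
/-- the side of the vortex with a given class -/
noncomputable def gidx (D : Data) (e : ℕ) (c : ZMod D.k) : ℕ :=
  if hp : ∃ p, p < D.mm e ∧ (D.sideAt (D.vort e).cell p).cls = (c.val : ℤ) then hp.choose else 0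

/-- the differences of a vortex -/
noncomputable def gg (D : Data) (u : ℤ) (N : ℕ) (e : Fin D.J) (c : ZMod D.k) : ZMod N :=
  ((D.val u (D.vort e).cell (D.gidx e c) 0 : ℤ) : ZMod N)

theorem OK.vo (h : D.OK) {e : ℕ} (he : e < D.J) : D.vortOK e := h.2.2.2.2.2.2.1 e he

theorem gidx_spec {e : Fin D.J} {c : ZMod D.k} (hc : D.CC e c) :
    D.gidx e c < D.mm e ∧ (D.sideAt (D.vort e).cell (D.gidx e c)).cls = (c.val : ℤ) := by
  have hp : ∃ p, p < D.mm e ∧ (D.sideAt (D.vort e).cell p).cls = (c.val : ℤ) := hc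
  rw [gidx, dif_pos hp]
  exact hp.choose_spec

theorem vort_valid (h : D.OK) {e : ℕ} (he : e < D.J) {p : ℕ} (hp : p < D.mm e) :
    D.Valid u (D.vort e).cell p 0 := by
  obtain ⟨h1, h2, h3, h4, -⟩ := h.vo he
  refine ⟨h1, hp, le_refl _, ?_⟩
  rw [h4, ev_cst]; norm_num

theorem CC_of (h : D.OK) (e : Fin D.J) {p : ℕ} (hp : p < D.mm e) {c : ZMod D.k}
    (hc : (((D.sideAt (D.vort e).cell p).cls : ℤ) : ZMod D.k) = c) : D.CC e c := by
  have := k_ne h
  obtain ⟨g1, -, -, -, g6, -⟩ := h.vo e.2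
  obtain ⟨k0, k1, -⟩ := h.side g1 (show p < (D.cell (D.vort e).cell).m from hp)
  refine ⟨p, hp, ?_⟩
  rw [← hc, ZMod.val_intCast, Int.emod_eq_of_lt k0 k1]

theorem gidx_cls (h : D.OK) (e : Fin D.J) {p : ℕ} (hp : p < D.mm e) {c : ZMod D.k}
    (hc : (((D.sideAt (D.vort e).cell p).cls : ℤ) : ZMod D.k) = c) : D.gidx e c = p := by
  have := k_ne h
  obtain ⟨h1, h2⟩ := gidx_spec (CC_of h e hp hc)
  obtain ⟨g1, -, -, -, g6, -⟩ := h.vo e.2
  apply g6 _ h1 _ hp
  rw [h2, ← hc]
  obtain ⟨k0, k1, -⟩ := h.side g1 (show p < (D.cell (D.vort e).cell).m from hp)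
  rw [ZMod.val_intCast, Int.emod_eq_of_lt k0 k1]

theorem cast_val (hk : D.k ∣ N) (z : ℤ) :
    ZMod.castHom hk (ZMod D.k) ((z : ℤ) : ZMod N) = (z : ZMod D.k) := map_intCast _ _

section
variable (h : D.OK) (hu : D.u₀ ≤ u) (hN : (N : ℤ) = D.nf.ev u)
include h hu hN

omit hu in
theorem cls_nx {i p : ℕ} {q : ℤ} (hv : D.Valid u i p q) :
    (((D.sideAt i p).cls : ℤ) : ZMod D.k) +
      ZMod.castHom (k_dvd h hN) (ZMod D.k) ((D.val u i p q : ℤ) : ZMod N) =
      ((D.sideAt i (D.nx i p)).cls : ℤ) := by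
  rw [cast_val, ← Int.cast_add, ← sub_eq_zero, ← Int.cast_sub, ZMod.intCast_zmod_eq_zero_iff_dvd]
  exact cls_next h hv

theorem psi_ne (c : ZMod D.k) (j : ZMod N) (hj : j ≠ 0) : D.psi u N c j ≠ 0 := by
  obtain ⟨i, p, q, hv, rfl, rfl⟩ := exists_rep h hu hN c j hj
  rw [psi_spec h hu hN hv]
  exact val_ne_zero h hu hN hv.nx

theorem lab_none_iff {i p : ℕ} {q : ℤ} (hv : D.Valid u i p q) :
    D.lab u N (((D.sideAt i p).cls : ℤ) : ZMod D.k) ((D.val u i p q : ℤ) : ZMod N) = none ↔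
      (D.cell i).lab = 0 := by
  rw [lab_spec h hu hN hv]
  have h4 := (h.2.2.2.2.2.1 i hv.1).2.2.2.1
  constructor
  · intro h1
    by_contra h0
    rw [dif_pos ⟨by omega, h4⟩] at h1
    cases h1
  · intro h1
    rw [dif_neg (by omega)]

theorem lab_none' (c : ZMod D.k) (j : ZMod N) (hj : j ≠ 0) (hl : D.lab u N c j = none) :
    D.lab u N (c + ZMod.castHom (k_dvd h hN) (ZMod D.k) j) (D.psi u N c j) = none := by
  obtain ⟨i, p, q, hv, rfl, rfl⟩ := exists_rep h hu hN c j hj
  rw [psi_spec h hu hN hv, cls_nx h hN hv, lab_none_iff h hu hN hv.nx]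
  exact (lab_none_iff h hu hN hv).1 hl

theorem sum_zero' (c : ZMod D.k) (j : ZMod N) (hj : j ≠ 0) (hl : D.lab u N c j = none) :
    j + D.psi u N c j + D.psi u N (c + ZMod.castHom (k_dvd h hN) (ZMod D.k) j) (D.psi u N c j)
      = 0 := by
  obtain ⟨i, p, q, hv, rfl, rfl⟩ := exists_rep h hu hN c j hj
  rw [psi_spec h hu hN hv, cls_nx h hN hv, psi_spec h hu hN hv.nx]
  have hlab := (lab_none_iff h hu hN hv).1 hl
  obtain ⟨hm, hva, hsum⟩ := (h.2.2.2.2.2.1 i hv.1).2.2.1 hlab
  have key : ∃ z : ℤ, D.val u i 0 q + D.val u i 1 q + D.val u i 2 q = z * N := by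
    have e : D.val u i 0 q + D.val u i 1 q + D.val u i 2 q
        = ((D.sideAt i 0).v.add ((D.sideAt i 1).v.add (D.sideAt i 2).v)).ev u := by
      unfold val
      rw [ev_add, ev_add]
      linear_combination q * hva
    rw [e]
    rcases hsum with hs | hs
    · exact ⟨1, by rw [hs, hN]; ring⟩
    · exact ⟨2, by rw [hs, hN, ev_smul]⟩
  obtain ⟨z, hz⟩ := key
  have key2 : ((D.val u i 0 q : ℤ) : ZMod N) + ((D.val u i 1 q : ℤ) : ZMod N)
      + ((D.val u i 2 q : ℤ) : ZMod N) = 0 := by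
    rw [← Int.cast_add, ← Int.cast_add, hz]
    push_cast
    rw [ZMod.natCast_self, mul_zero]
  have hp : p < 3 := by rw [← hm]; exact hv.2.1
  unfold nx
  rw [hm]
  interval_cases p
  · exact key2
  · change ((D.val u i 1 q : ℤ) : ZMod N) + ((D.val u i 2 q : ℤ) : ZMod N)
      + ((D.val u i 0 q : ℤ) : ZMod N) = 0
    rw [← key2]; ring
  · change ((D.val u i 2 q : ℤ) : ZMod N) + ((D.val u i 0 q : ℤ) : ZMod N)
      + ((D.val u i 1 q : ℤ) : ZMod N) = 0
    rw [← key2]; ring

omit hu hN in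
theorem gg_ne (hu : D.u₀ ≤ u) (hN : (N : ℤ) = D.nf.ev u) (e : Fin D.J) (c : ZMod D.k)
    (hc : D.CC e c) : D.gg u N e c ≠ 0 :=
  val_ne_zero h hu hN (vort_valid h e.2 (gidx_spec hc).1)

omit hu in
theorem gg_next (e : Fin D.J) (c : ZMod D.k) (hc : D.CC e c) :
    D.CC e (c + ZMod.castHom (k_dvd h hN) (ZMod D.k) (D.gg u N e c)) ∧
    D.gidx e (c + ZMod.castHom (k_dvd h hN) (ZMod D.k) (D.gg u N e c))
      = D.nx (D.vort e).cell (D.gidx e c) := by
  have := k_ne h
  have h1 := gidx_spec hc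
  have hv : D.Valid u (D.vort e).cell (D.gidx e c) 0 := vort_valid h e.2 h1.1
  have h3 : (((D.sideAt (D.vort e).cell (D.gidx e c)).cls : ℤ) : ZMod D.k) = c := by
    rw [h1.2]; simp
  have h5 := cls_nx h hN hv
  rw [h3] at h5
  have h6 : D.nx (D.vort e).cell (D.gidx e c) < D.mm e := by
    rw [nx]
    exact Nat.mod_lt _ (h.vo e.2).2.2.1
  exact ⟨CC_of h e h6 h5.symm, gidx_cls h e h6 h5.symm⟩

theorem gg_lab (e : Fin D.J) (c : ZMod D.k) (hc : D.CC e c) :
    D.lab u N c (D.gg u N e c) = some e := by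
  have := k_ne h
  have h1 := gidx_spec hc
  have hv : D.Valid u (D.vort e).cell (D.gidx e c) 0 := vort_valid h e.2 h1.1
  have h2 := lab_spec h hu hN hv
  have h3 : (((D.sideAt (D.vort e).cell (D.gidx e c)).cls : ℤ) : ZMod D.k) = c := by
    rw [h1.2]; simp
  rw [h3] at h2
  rw [gg, h2]
  have h4 : (D.cell (D.vort e).cell).lab = e + 1 := (h.vo e.2).2.1
  rw [dif_pos (by rw [h4]; omega)]
  congr 1
  apply Fin.ext
  change (D.cell (D.vort e).cell).lab - 1 = e
  rw [h4]; rfl

theorem lab_some' (c : ZMod D.k) (j : ZMod N) (e : Fin D.J) (hj : j ≠ 0) :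
    D.lab u N c j = some e ↔ D.CC e c ∧ j = D.gg u N e c := by
  constructor
  · intro hl
    obtain ⟨i, p, q, hv, hc, rfl⟩ := exists_rep h hu hN c j hj
    have hl' := hl
    rw [← hc, lab_spec h hu hN hv] at hl'
    have h4 := (h.2.2.2.2.2.1 i hv.1).2.2.2.2
    split_ifs at hl' with h0
    have h5 : (D.cell i).lab - 1 = e := congrArg Fin.val (Option.some.inj hl')
    have h6 := h4 (by omega)
    rw [h5] at h6
    subst h6
    obtain ⟨g1, g2, g3, g4, -⟩ := h.vo e.2
    have hp : p < D.mm e := hv.2.1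
    have hq : q = 0 := by
      have a1 := hv.2.2.1
      have a2 := hv.2.2.2
      rw [g4, ev_cst] at a2
      omega
    refine ⟨CC_of h e hp hc, ?_⟩
    rw [gg, gidx_cls h e hp hc, hq]
  · rintro ⟨hc, rfl⟩
    exact gg_lab h hu hN e c hc

theorem psi_gg (e : Fin D.J) (c : ZMod D.k) (hc : D.CC e c) : D.psi u N c (D.gg u N e c)
    = D.gg u N e (c + ZMod.castHom (k_dvd h hN) (ZMod D.k) (D.gg u N e c)) := by
  have := k_ne h
  have h1 := gidx_spec hc
  have hv : D.Valid u (D.vort e).cell (D.gidx e c) 0 := vort_valid h e.2 h1.1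
  have h3 : (((D.sideAt (D.vort e).cell (D.gidx e c)).cls : ℤ) : ZMod D.k) = c := by
    rw [h1.2]; simp
  have h4 := psi_spec h hu hN hv
  rw [h3] at h4
  have h7 := (gg_next h hN e c hc).2
  rw [gg, h4]
  rw [gg] at h7 ⊢
  rw [h7]

theorem single_rot (c : ZMod D.k) (j j' : ZMod N) (hj : j ≠ 0) (hj' : j' ≠ 0) :
    Reach (fun j => D.psi u N (c + ZMod.castHom (k_dvd h hN) (ZMod D.k) j) (-j)) j j' := by
  have hN2 := two_le h hu hN
  have : NeZero N := ⟨by omega⟩
  have : NeZero (N - 1) := ⟨by omega⟩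
  set θ : ZMod N → ZMod N :=
    fun j => D.psi u N (c + ZMod.castHom (k_dvd h hN) (ZMod D.k) j) (-j) with hθ
  let θ' : {j : ZMod N // j ≠ 0} → {j : ZMod N // j ≠ 0} :=
    fun x => ⟨θ x.1, psi_ne h hu hN _ _ (neg_ne_zero.2 x.2)⟩
  let R : {j : ZMod N // j ≠ 0} → ZMod (N - 1) := fun x => D.rank u N c x.1
  have hR : ∀ x, R (θ' x) = R x + 1 := by
    rintro ⟨j, hj⟩
    obtain ⟨i, p, q, hv, hc, hval⟩ := exists_rep h hu hN c j hj
    obtain ⟨i', p', q', hv', ⟨z, hz⟩, hcl, w, hw⟩ := exists_mate h hu hN hv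
    have e1 : -j = ((D.val u i' p' q' : ℤ) : ZMod N) := by
      have : ((D.val u i p q : ℤ) : ZMod N) + ((D.val u i' p' q' : ℤ) : ZMod N) = 0 := by
        rw [← Int.cast_add, hz]
        push_cast
        rw [ZMod.natCast_self, mul_zero]
      rw [hval] at this
      exact (eq_neg_of_add_eq_zero_right this).symm
    have e2 : c + ZMod.castHom (k_dvd h hN) (ZMod D.k) j
        = (((D.sideAt i' p').cls : ℤ) : ZMod D.k) := by
      rw [← hc, ← hval, cast_val, ← Int.cast_add, ← sub_eq_zero, ← Int.cast_sub,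
        ZMod.intCast_zmod_eq_zero_iff_dvd]
      exact hcl
    have e3 : θ j = ((D.val u i' (D.nx i' p') q' : ℤ) : ZMod N) := by
      change D.psi u N (c + ZMod.castHom (k_dvd h hN) (ZMod D.k) j) (-j) = _
      rw [e2, e1, psi_spec h hu hN hv']
    have e4 : (((D.sideAt i' (D.nx i' p')).cls : ℤ) : ZMod D.k) = c := by
      have := cls_nx h hN hv'
      rw [← e2, ← e1] at this
      rw [← this, map_neg]
      ring
    change D.rank u N c (θ j) = D.rank u N c j + 1
    have e5 := rank_spec h hu hN hv'.nx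
    have e6 := rank_spec h hu hN hv
    rw [e4] at e5
    rw [hc, hval] at e6
    rw [e3, e5, e6]
    have e7 : ((D.rk u i p q + 1 : ℤ) : ZMod (N - 1))
        = ((D.rk u i' (D.nx i' p') q' + w * (N - 1) : ℤ) : ZMod (N - 1)) := by rw [hw]
    have e8 : (((N : ℤ) - 1 : ℤ) : ZMod (N - 1)) = 0 := by
      have : (N : ℤ) - 1 = ((N - 1 : ℕ) : ℤ) := by omega
      rw [this, Int.cast_natCast, ZMod.natCast_self]
    rw [Int.cast_add, Int.cast_add, Int.cast_mul, e8, mul_zero, add_zero, Int.cast_one] at e7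
    exact e7.symm
  obtain ⟨n, hn⟩ := reach_of_rank (N - 1) (by
    rw [Fintype.card_subtype_compl, ZMod.card]; simp) θ' R hR ⟨j, hj⟩ ⟨j', hj'⟩
  refine ⟨n, ?_⟩
  have key : ∀ m, (θ'^[m] ⟨j, hj⟩).1 = θ^[m] j := by
    intro m
    induction m with
    | zero => rfl
    | succ m ih => rw [Function.iterate_succ_apply', Function.iterate_succ_apply', ← ih]
  rw [← key n, hn]

theorem vort_walk (e : Fin D.J) (n : ℕ) : ∀ (p : ℕ) (x : ZMod N), p < D.mm e →
    ZMod.castHom (k_dvd h hN) (ZMod D.k) x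
      = (((D.sideAt (D.vort e).cell p).cls : ℤ) : ZMod D.k) → p + n ≤ D.mm e →
    (fun x => x + D.gg u N e (ZMod.castHom (k_dvd h hN) (ZMod D.k) x))^[n] x
      = x + (((D.sumSides (D.vort e).cell (p + n)).ev u
        - (D.sumSides (D.vort e).cell p).ev u : ℤ) : ZMod N) ∧
    ZMod.castHom (k_dvd h hN) (ZMod D.k)
      ((fun x => x + D.gg u N e (ZMod.castHom (k_dvd h hN) (ZMod D.k) x))^[n] x)
      = (((D.sideAt (D.vort e).cell ((p + n) % D.mm e)).cls : ℤ) : ZMod D.k) := by
  induction n with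
  | zero =>
    intro p x hp hx _
    refine ⟨by simp, ?_⟩
    rw [add_zero, Nat.mod_eq_of_lt hp]
    exact hx
  | succ n ih =>
    intro p x hp hx hle
    obtain ⟨h1, h2⟩ := ih p x hp hx (by omega)
    have hpn : p + n < D.mm e := by omega
    rw [Nat.mod_eq_of_lt hpn] at h2
    have hv : D.Valid u (D.vort e).cell (p + n) 0 := vort_valid h e.2 hpn
    have h3 : D.gg u N e (((D.sideAt (D.vort e).cell (p + n)).cls : ℤ) : ZMod D.k)
        = ((D.val u (D.vort e).cell (p + n) 0 : ℤ) : ZMod N) := by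
      rw [gg, gidx_cls h e hpn rfl]
    rw [Function.iterate_succ_apply']
    simp only [h2, h3]
    constructor
    · rw [h1, ← add_assoc p n 1, sumSides, ev_add]
      have : D.val u (D.vort e).cell (p + n) 0 = (D.sideAt (D.vort e).cell (p + n)).v.ev u := by
        unfold val; ring
      rw [this]
      push_cast
      ring
    · rw [map_add, h2, cls_nx h hN hv, nx, add_assoc]
      rfl

theorem single_g' (e : Fin D.J) (x y : ZMod N)
    (hx : D.CC e (ZMod.castHom (k_dvd h hN) (ZMod D.k) x))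
    (hy : D.CC e (ZMod.castHom (k_dvd h hN) (ZMod D.k) y)) :
    Reach (fun x => x + D.gg u N e (ZMod.castHom (k_dvd h hN) (ZMod D.k) x)) x y := by
  have hk0 : 0 < D.mm e := (h.vo e.2).2.2.1
  have := k_ne h
  have hN2 := two_le h hu hN
  have : NeZero N := ⟨by omega⟩
  set f : ZMod N → ZMod N := fun x => x + D.gg u N e (ZMod.castHom (k_dvd h hN) (ZMod D.k) x)
    with hf
  set π := ZMod.castHom (k_dvd h hN) (ZMod D.k) with hπ
  set i := (D.vort e).cell with hi
  obtain ⟨-, -, -, -, -, hsum, b1, b2, b3⟩ := h.vo e.2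
  -- the class of every vertex is the class of a side
  have hcl : ∀ x : ZMod N, D.CC e (π x) →
      ∃ p < D.mm e, π x = (((D.sideAt i p).cls : ℤ) : ZMod D.k) := by
    intro x hx
    obtain ⟨p, hp, hpc⟩ := hx
    refine ⟨p, hp, ?_⟩
    rw [hpc]; simp
  -- from class `p` to class `0`
  have to0 : ∀ x : ZMod N, D.CC e (π x) →
      ∃ x', Reach f x x' ∧ π x' = (((D.sideAt i 0).cls : ℤ) : ZMod D.k) := by
    intro x hx
    obtain ⟨p, hp, hx⟩ := hcl x hx
    obtain ⟨-, h2⟩ := vort_walk h hu hN e (D.mm e - p) p x hp hx (by omega)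
    refine ⟨f^[D.mm e - p] x, ⟨_, rfl⟩, ?_⟩
    rw [show p + (D.mm e - p) = D.mm e by omega, Nat.mod_self] at h2
    exact h2
  have from0 : ∀ y : ZMod N, D.CC e (π y) →
      ∃ y', Reach f y' y ∧ π y' = (((D.sideAt i 0).cls : ℤ) : ZMod D.k) := by
    intro y hy
    obtain ⟨p, hp, hy⟩ := hcl y hy
    set y' : ZMod N := y - (((D.sumSides i p).ev u : ℤ) : ZMod N) with hy'
    -- the sum of the first `p` values moves class 0 to class p
    have hs : ∀ p, p < D.mm e → (((D.sideAt i 0).cls : ℤ) : ZMod D.k)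
        + (((D.sumSides i p).ev u : ℤ) : ZMod D.k) = (((D.sideAt i p).cls : ℤ) : ZMod D.k) := by
      intro p
      induction p with
      | zero => intro _; rw [sumSides, ev_cst]; simp
      | succ p ih =>
        intro hp
        have hv : D.Valid u i p 0 := vort_valid h e.2 (by omega)
        have h1 := cls_nx h hN hv
        rw [cast_val] at h1
        have h2 : D.val u i p 0 = (D.sideAt i p).v.ev u := by unfold val; ring
        have h3 : D.nx i p = p + 1 := by
          rw [nx]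
          exact Nat.mod_eq_of_lt hp
        rw [h2, h3] at h1
        rw [sumSides, ev_add, Int.cast_add, ← add_assoc, ih (by omega), h1]
    have hπy' : π y' = (((D.sideAt i 0).cls : ℤ) : ZMod D.k) := by
      rw [hy', map_sub, hy, ← hs p hp, hπ, cast_val]
      ring
    refine ⟨y', ⟨p, ?_⟩, hπy'⟩
    obtain ⟨h1, -⟩ := vort_walk h hu hN e p 0 y' hk0 hπy' (by omega)
    rw [zero_add, show (D.sumSides (D.vort e).cell 0).ev u = 0 by rw [sumSides, ev_cst],
      sub_zero] at h1
    rw [show f^[p] y' = _ from h1, hy']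
    ring
  -- `k` steps from class 0
  have step0 : ∀ x : ZMod N, π x = (((D.sideAt i 0).cls : ℤ) : ZMod D.k) →
      f^[D.mm e] x = x + (((D.vort e).sum.ev u : ℤ) : ZMod N) := by
    intro x hx
    obtain ⟨h1, -⟩ := vort_walk h hu hN e (D.mm e) 0 x hk0 hx (by omega)
    have hsum' : D.sumSides (D.vort e).cell (D.mm e) = (D.vort e).sum := hsum.symm
    rw [zero_add, show (D.sumSides (D.vort e).cell 0).ev u = 0 by rw [sumSides, ev_cst],
      sub_zero, hsum'] at h1
    exact h1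
  have bez : (D.vort e).x.ev u * (D.vort e).sum.ev u + (D.vort e).y.ev u * N = D.k := by
    rw [hN]
    unfold Aff.ev
    linear_combination u ^ 2 * b1 + u * b2 + b3
  set S : ZMod N := (((D.vort e).sum.ev u : ℤ) : ZMod N) with hS
  have hπS : π S = 0 := by
    have h1 : (((D.sideAt i 0).cls : ℤ) : ZMod D.k) + π S
        = (((D.sideAt i 0).cls : ℤ) : ZMod D.k) := by
      obtain ⟨y', -, hy'⟩ := from0 x hx
      obtain ⟨-, h2⟩ := vort_walk h hu hN e (D.mm e) 0 y' hk0 hy' (by omega)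
      have h3 := step0 y' hy'
      rw [show (fun x => x + D.gg u N e (ZMod.castHom (k_dvd h hN) (ZMod D.k) x))^[D.mm e] y'
        = y' + S from h3, zero_add, Nat.mod_self] at h2
      rw [map_add] at h2
      rw [← hy']
      rw [show π y' + π S = _ from h2, hy']
    simpa using h1
  have stepn : ∀ (n : ℕ) (x : ZMod N), π x = (((D.sideAt i 0).cls : ℤ) : ZMod D.k) →
      Reach f x (x + n * S) := by
    intro n
    induction n with
    | zero => intro x _; simpa using Reach.refl f x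
    | succ n ih =>
      intro x hx
      have h1 : Reach f x (x + S) := ⟨D.mm e, step0 x hx⟩
      have h2 := ih (x + S) (by rw [map_add, hx, hπS, add_zero])
      have h3 := h1.trans h2
      have e3 : x + S + n * S = x + ((n + 1 : ℕ) : ZMod N) * S := by push_cast; ring
      rw [e3] at h3
      exact h3
  obtain ⟨x', hx1, hx2⟩ := to0 x hx
  obtain ⟨y', hy1, hy2⟩ := from0 y hy
  refine hx1.trans (Reach.trans ?_ hy1)
  have hd : π (y' - x') = 0 := by rw [map_sub, hx2, hy2, sub_self]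
  have hdk : ∃ d : ℤ, y' - x' = ((D.k * d : ℤ) : ZMod N) := by
    have h1 : (((y' - x').val : ℤ) : ZMod N) = y' - x' := by simp
    rw [← h1, hπ, cast_val, ZMod.intCast_zmod_eq_zero_iff_dvd] at hd
    obtain ⟨d, hd⟩ := hd
    exact ⟨d, by rw [← hd, h1]⟩
  obtain ⟨d, hd⟩ := hdk
  have hkS : ((D.k : ℤ) : ZMod N) = (((D.vort e).x.ev u : ℤ) : ZMod N) * S := by
    rw [← bez]
    push_cast
    rw [ZMod.natCast_self, mul_zero, add_zero]
  have := stepn ((((d * (D.vort e).x.ev u : ℤ)) : ZMod N).val) x' hx2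
  rw [ZMod.natCast_zmod_val] at this
  have e4 : x' + ((d * (D.vort e).x.ev u : ℤ) : ZMod N) * S = y' := by
    have : y' = x' + (y' - x') := by ring
    rw [this, hd, Int.cast_mul (D.k : ℤ) d, hkS]
    push_cast
    ring
  rw [e4] at this
  exact this

/-- The family of current graphs given by a valid table. -/
noncomputable def toCGP (h : D.OK) (hu : D.u₀ ≤ u) (hN : (N : ℤ) = D.nf.ev u) :
    CGP D.k N (Fin D.J) (k_dvd h hN) D.CC where
  psi := D.psi u N
  lab := D.lab u N
  g := D.gg u N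
  psi_ne := psi_ne h hu hN
  lab_none := lab_none' h hu hN
  sum_zero := sum_zero' h hu hN
  g_ne := gg_ne h hu hN
  C_next := fun i c hc => (gg_next h hN i c hc).1
  lab_some := lab_some' h hu hN
  psi_g := psi_gg h hu hN
  single_g := single_g' h hu hN
  single := single_rot h hu hN

end

end Data

end Pool.Agent.Lib.CurP.Table
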